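import Pool.Agent.helper27.AB.Main

/-!
# Measure-wise embeddings do not give an almost Borel embedding

For every `d ≥ 1` there are topological `ℤ^d` systems `X` and `Y` such that every invariant
probability measure of `Y` is realized as an invariant measure on `X`, although there is no almost
Borel embedding of `Y` into `X`.
-/

set_option autoImplicit false

open MeasureTheory

namespace Pool.Agent.Results.MP_93a5dd_an.MeasurewiseNotBorel

open Pool.Agent.helper27.AB

theorem result (d : ℕ) (hd : 0 < d) :
    ∃ X Y : TopSys d,
      (∀ μ : Measure Y.X, IsInvProb Y μ → Realized Y X μ) ∧ ¬ AlmostBorelEmbeds Y X :=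
  ⟨DX.sys d hd, DY.sys d hd, realized d hd, not_embeds d hd⟩

end Pool.Agent.Results.MP_93a5dd_an.MeasurewiseNotBorel
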